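import Mathlib
import Pool.Agent.MP_2b113a_an.H33.Defs
import Pool.Agent.MP_2b113a_an.H49.Fixed
import Pool.Agent.MP_2b113a_an.H46.Coc

/-!
The Koopman representation of a nonsingular action and the cone of nonnegative functions.
-/

namespace Pool.Agent.MP_2b113a_an.H24

open MeasureTheory
open scoped ENNReal NNReal InnerProductSpace
open Pool.Agent.MP_2b113a_an.H33 Pool.Agent.MP_2b113a_an.H49

variable {G X : Type} [Group G] [MeasurableSpace X] [MulAction G X]

section
variable {μ : Measure X} [IsProbabilityMeasure μ] (hm : ∀ g : G, Measurable fun x : X => g • x)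
  (hac : ∀ g : G, (μ.map fun x : X => g • x) ≪ μ)
include hm hac

theorem U_mul (g h : G) (f : Lp ℝ 2 μ) : U hm hac g (U hm hac h f) = U hm hac (g * h) f := by
  refine Lp.ext ?_
  filter_upwards [U_ae hm hac g (U hm hac h f), ae_smul hm hac g⁻¹ (U_ae hm hac h f),
    U_ae hm hac (g * h) f, r_cocycle hm hac g h] with x h1 h2 h3 h4
  rw [h1, h2, h3, h4, mul_inv_rev, mul_smul, mul_assoc]

theorem U_one (f : Lp ℝ 2 μ) : U hm hac 1 f = f := by
  refine Lp.ext ?_
  have h1 : ∀ᵐ x ∂μ, ρ μ (1 : G) x = 1 := by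
    have e : (μ.map fun x : X => (1 : G) • x) = μ := by simp
    unfold ρ
    rw [e]
    exact Measure.rnDeriv_self μ
  filter_upwards [U_ae hm hac 1 f, h1] with x hx h1
  rw [hx]
  unfold r
  rw [h1]
  simp

/-- The Koopman operator as an isometric equivalence. -/
noncomputable def Ue (g : G) : Lp ℝ 2 μ ≃ₗᵢ[ℝ] Lp ℝ 2 μ where
  toLinearMap := U hm hac g
  invFun := U hm hac g⁻¹
  left_inv f := by
    show U hm hac g⁻¹ (U hm hac g f) = f
    rw [U_mul, inv_mul_cancel, U_one]
  right_inv f := by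
    show U hm hac g (U hm hac g⁻¹ f) = f
    rw [U_mul, mul_inv_cancel, U_one]
  norm_map' := norm_U hm hac g

/-- The Koopman representation. -/
noncomputable def rep : G →* (Lp ℝ 2 μ ≃ₗᵢ[ℝ] Lp ℝ 2 μ) where
  toFun := Ue hm hac
  map_one' := by
    ext1 f
    exact U_one hm hac f
  map_mul' g h := by
    ext1 f
    exact (U_mul hm hac g h f).symm

theorem rep_apply (g : G) (f : Lp ℝ 2 μ) : rep hm hac g f = U hm hac g f := rfl

theorem r_pos (g : G) : ∀ᵐ x ∂μ, 0 < r μ g x := by
  have hac' : μ ≪ μ.map fun x : X => g • x := by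
    refine Measure.AbsolutelyContinuous.mk fun s hs h0 => ?_
    rw [Measure.map_apply (hm g) hs] at h0
    have h1 := hac g⁻¹ h0
    rw [Measure.map_apply (hm g⁻¹) (hm g hs)] at h1
    simpa [Set.preimage_preimage] using h1
  filter_upwards [Measure.rnDeriv_pos' hac',
    Measure.rnDeriv_lt_top (μ.map fun x : X => g • x) μ] with x h1 h2
  exact Real.sqrt_pos.2 (ENNReal.toReal_pos h1.ne' h2.ne)

theorem of_inv (g : G) (ν : Measure X) [IsFiniteMeasure ν] (h1 : ν ≪ μ) (h2 : μ ≪ ν)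
    (h3 : ν.map (fun x : X => g • x) = ν) :
    ∃ f : Lp ℝ 2 μ, (∀ᵐ x ∂μ, 0 < f x) ∧ U hm hac g f = f := by
  set D : X → ℝ≥0∞ := ν.rnDeriv μ with hD
  have hDm : Measurable D := Measure.measurable_rnDeriv _ _
  have hmem : MemLp (fun x => Real.sqrt (D x).toReal) 2 μ := by
    rw [memLp_two_iff_integrable_sq hDm.ennreal_toReal.sqrt.aestronglyMeasurable]
    simp only [Real.sq_sqrt ENNReal.toReal_nonneg]
    exact Measure.integrable_toReal_rnDeriv
  have hF : Measurable fun x : X => ρ μ g x * D (g⁻¹ • x) :=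
    (meas_ρ μ g).mul (hDm.comp (hm g⁻¹))
  have e : ν = μ.withDensity fun x : X => ρ μ g x * D (g⁻¹ • x) := by
    ext s hs
    have hi : Measurable (s.indicator (1 : X → ℝ≥0∞)) := measurable_one.indicator hs
    rw [withDensity_apply _ hs, ← lintegral_indicator hs]
    have e1 : (s.indicator fun x : X => ρ μ g x * D (g⁻¹ • x)) =
        fun x => ρ μ g x * (D (g⁻¹ • x) * s.indicator 1 x) := by
      ext x
      by_cases hx : x ∈ s <;> simp [hx]
    rw [e1, key_lint hm hac g (φ := fun x => D (g⁻¹ • x) * s.indicator 1 x)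
      ((hDm.comp (hm g⁻¹)).mul hi)]
    simp only [inv_smul_smul]
    conv_lhs => rw [← h3, Measure.map_apply (hm g) hs,
      ← Measure.setLIntegral_rnDeriv' h1 (hm g hs), ← lintegral_indicator (hm g hs)]
    congr 1
    ext x
    by_cases hx : g • x ∈ s <;> simp [hx, Set.indicator, hD]
  have h4 : ∀ᵐ x ∂μ, D x = ρ μ g x * D (g⁻¹ • x) := by
    have h5 := Measure.rnDeriv_withDensity μ hF
    rw [← e] at h5
    exact h5
  refine ⟨hmem.toLp, ?_, Lp.ext ?_⟩
  · filter_upwards [hmem.coeFn_toLp, Measure.rnDeriv_pos' h2, Measure.rnDeriv_lt_top ν μ]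
      with x hx h5 h6
    rw [hx]
    exact Real.sqrt_pos.2 (ENNReal.toReal_pos h5.ne' h6.ne)
  · filter_upwards [U_ae hm hac g hmem.toLp, ae_smul hm hac g⁻¹ hmem.coeFn_toLp,
      hmem.coeFn_toLp, h4] with x a1 a2 a3 a4
    rw [a1, a2, a3]
    conv_rhs => rw [a4]
    unfold r
    rw [ENNReal.toReal_mul, Real.sqrt_mul ENNReal.toReal_nonneg]

theorem to_inv (ξ : Lp ℝ 2 μ) (hpos : ∀ᵐ x ∂μ, 0 < ξ x) (hinv : ∀ g, U hm hac g ξ = ξ) :
    ∃ ν : Measure X, IsProbabilityMeasure ν ∧ ν ≪ μ ∧ μ ≪ ν ∧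
      ∀ g : G, ν.map (fun x : X => g • x) = ν := by
  have hξ : Measurable ξ := (Lp.stronglyMeasurable ξ).measurable
  set D : X → ℝ≥0∞ := fun x => ENNReal.ofReal (ξ x ^ 2) with hD
  have hDm : Measurable D := (hξ.pow_const 2).ennreal_ofReal
  have h2 : Integrable (fun x => ξ x ^ 2) μ :=
    (memLp_two_iff_integrable_sq (Lp.aestronglyMeasurable ξ)).1 (Lp.memLp ξ)
  have : IsFiniteMeasure (μ.withDensity D) := isFiniteMeasure_withDensity_ofReal h2.2
  have hac2 : μ ≪ μ.withDensity D := by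
    refine withDensity_absolutelyContinuous' hDm.aemeasurable ?_
    filter_upwards [hpos] with x hx
    simp [hD, hx.ne']
  have hne : μ.withDensity D ≠ 0 := by
    intro h
    rw [h] at hac2
    exact IsProbabilityMeasure.ne_zero μ (Measure.absolutelyContinuous_zero_iff.1 hac2)
  have : NeZero (μ.withDensity D) := ⟨hne⟩
  have hinv2 : ∀ g : G, (μ.withDensity D).map (fun x : X => g • x) = μ.withDensity D := by
    intro g
    ext s hs
    have hi : Measurable (s.indicator (1 : X → ℝ≥0∞)) := measurable_one.indicator hs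
    rw [Measure.map_apply (hm g) hs, withDensity_apply _ (hm g hs), withDensity_apply _ hs,
      ← lintegral_indicator hs, ← lintegral_indicator (hm g hs)]
    have e1 : ((fun x : X => g • x) ⁻¹' s).indicator D =
        fun x => D (g⁻¹ • g • x) * s.indicator 1 (g • x) := by
      ext x
      by_cases hx : g • x ∈ s <;> simp [hx, Set.indicator]
    rw [e1, ← key_lint hm hac g (φ := fun x => D (g⁻¹ • x) * s.indicator 1 x)
      ((hDm.comp (hm g⁻¹)).mul hi)]
    refine lintegral_congr_ae ?_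
    filter_upwards [U_ae hm hac g ξ,
      Measure.rnDeriv_lt_top (μ.map fun x : X => g • x) μ] with x hx hx'
    rw [hinv] at hx
    by_cases hxs : x ∈ s
    · simp only [hxs, Set.indicator_of_mem, Pi.one_apply, mul_one, hD]
      have h6 : ρ μ g x ≠ ∞ := hx'.ne
      rw [hx, mul_pow, r_sq, ENNReal.ofReal_mul ENNReal.toReal_nonneg,
        ENNReal.ofReal_toReal h6]
    · simp [hxs]
  refine ⟨(μ.withDensity D Set.univ)⁻¹ • μ.withDensity D, inferInstance, ?_, ?_, fun g => ?_⟩
  · exact (withDensity_absolutelyContinuous μ D).smul_left _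
  · exact hac2.trans (Measure.absolutelyContinuous_smul
      (ENNReal.inv_ne_zero.2 (measure_ne_top _ _)))
  · rw [Measure.map_smul, hinv2]

end

theorem koop : KoopStmt := by
  intro Γ _ X _ _ μ _ h
  have hm := h.meas
  have hac := H46.map_ac h
  exact ⟨{
    π := rep hm hac
    r := r μ
    r_pos := r_pos hm hac
    π_ae := U_ae hm hac
    qmp := fun g => ⟨hm g, hac g⟩
    of_inv := fun g ν _ h1 h2 h3 => of_inv hm hac g ν h1 h2 h3
    to_inv := to_inv hm hac }⟩

theorem cone : ConeStmt := by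
  intro X _ μ _
  have e : {f : Lp ℝ 2 μ | ∀ᵐ x ∂μ, 0 ≤ f x} = Set.Ici 0 := by
    ext f
    exact Lp.coeFn_nonneg f
  refine ⟨e ▸ isClosed_Ici, ?_, fun ξ => ⟨fun h => ?_, fun h => ⟨?_, ?_⟩⟩⟩
  · intro f hf g hg a b ha hb _
    have hf' : ∀ᵐ x ∂μ, 0 ≤ f x := hf
    have hg' : ∀ᵐ x ∂μ, 0 ≤ g x := hg
    show ∀ᵐ x ∂μ, 0 ≤ (a • f + b • g) x
    filter_upwards [hf', hg', Lp.coeFn_add (a • f) (b • g), Lp.coeFn_smul a f,
      Lp.coeFn_smul b g] with x h1 h2 h3 h4 h5
    rw [h3, Pi.add_apply, h4, h5]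
    simp only [Pi.smul_apply, smul_eq_mul]
    positivity
  · have hξ : Measurable ξ := (Lp.stronglyMeasurable ξ).measurable
    have hE : MeasurableSet {x | ξ x ≤ 0} := measurableSet_le hξ measurable_const
    have h0 : ∀ᵐ x ∂μ, 0 ≤ ξ x := h.1
    have h1 := h.2 (indicatorConstLp 2 hE (measure_ne_top μ _) (1 : ℝ)) (by
      filter_upwards [indicatorConstLp_coeFn (p := 2) (hs := hE) (hμs := measure_ne_top μ _)
        (c := (1 : ℝ))] with x hx
      rw [hx]
      exact Set.indicator_nonneg (fun _ _ => zero_le_one) x) (by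
      rw [real_inner_comm, L2.inner_indicatorConstLp_one]
      refine le_antisymm (setIntegral_nonpos hE fun x hx => hx) ?_
      exact integral_nonneg_of_ae (ae_restrict_of_ae h0))
    have h2 := indicatorConstLp_coeFn (p := 2) (hs := hE) (hμs := measure_ne_top μ _)
      (c := (1 : ℝ))
    rw [h1] at h2
    filter_upwards [h2, Lp.coeFn_zero ℝ 2 μ] with x hx hx0
    rw [hx0] at hx
    by_contra hc
    have hx1 : x ∈ {x | ξ x ≤ 0} := not_lt.1 hc
    simp [Set.indicator_of_mem hx1] at hx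
  · exact h.mono fun x hx => hx.le
  · intro η hη h0
    have hη' : ∀ᵐ x ∂μ, 0 ≤ η x := hη
    rw [L2.inner_def] at h0
    have hint := L2.integrable_inner (𝕜 := ℝ) ξ η
    have hnn : 0 ≤ᵐ[μ] fun x => ⟪ξ x, η x⟫_ℝ := by
      filter_upwards [h, hη'] with x h1 h2
      simp only [Pi.zero_apply, RCLike.inner_apply, conj_trivial]
      positivity
    rw [integral_eq_zero_iff_of_nonneg_ae hnn hint] at h0
    refine Lp.ext ?_
    filter_upwards [h, h0, Lp.coeFn_zero ℝ 2 μ] with x h1 h2 h3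
    rw [h3]
    simp only [Pi.zero_apply, RCLike.inner_apply, conj_trivial] at h2 ⊢
    exact (mul_eq_zero.1 h2).resolve_right h1.ne'

end Pool.Agent.MP_2b113a_an.H24
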